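import Pool.Agent.Helper51.QFact
import Mathlib.FieldTheory.RatFunc.AsPolynomial

/-!
# The q-factorial ratio with the parameters 15, 2, 10, 4, 3 is a polynomial with non-negative coefficients

`[m]! = (1 - q) (1 - q^2) ... (1 - q^m)` in the field `ℚ(q)` of rational functions. For every `n` the rational function
`F_n(q) = [15n]! [2n]! / ([10n]! [4n]! [3n]!)` is a polynomial, and all its coefficients are natural numbers.
-/

set_option autoImplicit false

open Polynomial

namespace Pool.Agent.Results.MP_9172b5_co.PositiveRatio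

/-- `[m]! = (1 - q) (1 - q^2) ... (1 - q^m)`, an element of `ℚ(q)`; `[0]! = 1`. -/
noncomputable def qFactorial (m : ℕ) : RatFunc ℚ :=
  ∏ i ∈ Finset.Icc 1 m, (1 - RatFunc.X ^ i)

/-- `F_n(q) = [15n]! [2n]! / ([10n]! [4n]! [3n]!)`, a rational function of `q`. -/
noncomputable def F (n : ℕ) : RatFunc ℚ :=
  qFactorial (15 * n) * qFactorial (2 * n) /
    (qFactorial (10 * n) * qFactorial (4 * n) * qFactorial (3 * n))

/-- The image in `ℚ(q)` of a polynomial with coefficients in `ℕ`. -/
noncomputable def ofNatPoly (P : ℕ[X]) : RatFunc ℚ :=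
  algebraMap ℚ[X] (RatFunc ℚ) (P.map (Nat.castRingHom ℚ))

open Pool.Agent.Helper51 in
lemma qFactorial_eq (m : ℕ) :
    qFactorial m = algebraMap ℚ[X] (RatFunc ℚ) ((qf m).map (Int.castRingHom ℚ)) := by
  induction m with
  | zero => simp [qFactorial, qf]
  | succ m ih =>
    unfold qFactorial at ih ⊢
    rw [Finset.prod_Icc_succ_top (by omega), ih]
    unfold qf
    rw [Finset.prod_range_succ]
    simp

open Pool.Agent.Helper51 in
lemma qFactorial_ne_zero (m : ℕ) : qFactorial m ≠ 0 := by
  rw [qFactorial_eq]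
  intro h
  rw [map_eq_zero_iff _ (RatFunc.algebraMap_injective ℚ)] at h
  rw [Polynomial.map_eq_zero_iff (Int.castRingHom ℚ).injective_int] at h
  exact qf_ne_zero m h

lemma exists_nat_poly (P : ℤ[X]) (hP : ∀ k, 0 ≤ P.coeff k) :
    ∃ Q : ℕ[X], Q.map (Nat.castRingHom ℤ) = P := by
  refine ⟨∑ i ∈ P.support, monomial i (P.coeff i).toNat, ?_⟩
  rw [Polynomial.map_sum]
  conv_rhs => rw [P.as_sum_support]
  refine Finset.sum_congr rfl fun i _ => ?_
  rw [Polynomial.map_monomial]
  congr 1
  simp [hP i]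

/-- **Theorem.** For every positive integer `n` (and for `n = 0`) the rational function
`F_n(q) = [15n]! [2n]! / ([10n]! [4n]! [3n]!)` is a polynomial in `q` all of whose coefficients are non-negative
integers. -/
theorem result (n : ℕ) : ∃ P : ℕ[X], F n = ofNatPoly P := by
  obtain ⟨P, hP, h⟩ := Pool.Agent.Helper51.main n
  obtain ⟨Q, hQ⟩ := exists_nat_poly P hP
  refine ⟨Q, ?_⟩
  unfold F ofNatPoly
  rw [div_eq_iff (mul_ne_zero (mul_ne_zero (qFactorial_ne_zero _) (qFactorial_ne_zero _))
    (qFactorial_ne_zero _))]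
  have e : Q.map (Nat.castRingHom ℚ) = P.map (Int.castRingHom ℚ) := by
    rw [← hQ, Polynomial.map_map]
    congr 1
  rw [e]
  simp only [qFactorial_eq]
  rw [← map_mul, ← map_mul, ← map_mul, ← map_mul, ← Polynomial.map_mul, ← Polynomial.map_mul, ← Polynomial.map_mul,
    ← Polynomial.map_mul, h]

end Pool.Agent.Results.MP_9172b5_co.PositiveRatio
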